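import Pool.Agent.H13.EC.Defs

/-! Module RKP: the rank of the group of points and the rank of the Picard group. -/

set_option autoImplicit false

open scoped TensorProduct Classical

namespace Pool.Agent.H48.EC

open Pool.Agent.H13.EC

universe u

/-- isomorphic rings have isomorphic Picard groups -/
noncomputable def picEquiv {R S : Type u} [CommRing R] [CommRing S] (φ : R ≃+* S) :
    CommRing.Pic R ≃* CommRing.Pic S where
  toFun := CommRing.Pic.mapRingHom φ.toRingHom
  invFun := CommRing.Pic.mapRingHom φ.symm.toRingHom
  left_inv x := by
    rw [CommRing.Pic.mapRingHom_mapRingHom]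
    have : φ.symm.toRingHom.comp φ.toRingHom = RingHom.id _ := by
      apply RingHom.ext; intro x; simp
    rw [this, CommRing.Pic.mapRingHom_id_apply]
  right_inv x := by
    rw [CommRing.Pic.mapRingHom_mapRingHom]
    have : φ.toRingHom.comp φ.symm.toRingHom = RingHom.id _ := by
      apply RingHom.ext; intro x; simp
    rw [this, CommRing.Pic.mapRingHom_id_apply]
  map_mul' := fun _ _ => map_mul _ _ _

theorem rkp (h : T_CLS.{u}) : T_RKP.{u} := by
  intro k _ W S _ hW he hfin
  obtain ⟨e⟩ := he
  have hcls := h k W.toAffine hW
  let e2 : ClassGroup W.toAffine.CoordinateRing ≃* CommRing.Pic S :=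
    (ClassGroup.equivPic W.toAffine.CoordinateRing).trans (picEquiv e)
  let g : W.toAffine.Point →+ Additive (CommRing.Pic S) :=
    (MulEquiv.toAdditive e2).toAddMonoidHom.comp
      (WeierstrassCurve.Affine.Point.toClass (W := W.toAffine))
  have hg : Function.Surjective g := (MulEquiv.toAdditive e2).surjective.comp hcls
  have hs : Function.Surjective (LinearMap.baseChange ℚ g.toIntLinearMap) :=
    LinearMap.lTensor_surjective ℚ (show Function.Surjective g.toIntLinearMap from hg)
  exact Module.Finite.of_surjective _ hs

end Pool.Agent.H48.EC
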