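import Pool.Agent.H13.EC.Defs

/-! Module SS: the supersingular case. -/

set_option autoImplicit false

namespace Pool.Agent.H48.EC

open Pool.Agent.H13.EC

universe u

section

variable {F : Type u} [Field F] {Γ₀ : Type u} [LinearOrderedCommGroupWithZero Γ₀]
  (v : Valuation F Γ₀)

/-- a subgroup of finite index is unbounded -/
theorem unb (hv : ∀ b : F, ∃ x, v b < v x) (H : AddSubgroup F) (hH : H.FiniteIndex) (c : F) :
    ∃ h ∈ H, v c < v h := by
  by_contra hcon
  push Not at hcon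
  have : Finite (F ⧸ H) := H.finite_quotient_of_finiteIndex
  obtain ⟨m, hm⟩ := Finite.exists_max (fun q : F ⧸ H => v q.out)
  obtain ⟨d, hd1, hd2⟩ : ∃ d : F, v c ≤ v d ∧ v m.out ≤ v d := by
    rcases le_total (v c) (v m.out) with h | h
    · exact ⟨m.out, h, le_rfl⟩
    · exact ⟨c, le_rfl, h⟩
  obtain ⟨x, hx⟩ := hv d
  have h1 : -(QuotientAddGroup.mk x : F ⧸ H).out + x ∈ H :=
    QuotientAddGroup.eq.1 (QuotientAddGroup.out_eq' _)
  have h2 := hcon _ h1
  have h3 : v x ≤ max (v (QuotientAddGroup.mk x : F ⧸ H).out)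
      (v (-(QuotientAddGroup.mk x : F ⧸ H).out + x)) := by
    have := v.map_add (QuotientAddGroup.mk x : F ⧸ H).out
      (-(QuotientAddGroup.mk x : F ⧸ H).out + x)
    rwa [add_neg_cancel_left] at this
  rcases le_max_iff.1 h3 with h4 | h4
  · exact absurd (h4.trans ((hm _).trans hd2)) (not_le.2 hx)
  · exact absurd (h4.trans (h2.trans hd1)) (not_le.2 hx)

/-- families of elements with growing valuation which are orthogonal -/
theorem fam (hv : ∀ b : F, ∃ x, v b < v x) {V : Type u} [AddCommGroup V] [Finite V]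
    (β : F →+ F →+ V) (x' B : F) (n : ℕ) :
    ∃ y : ℕ → F, ∀ j < n, v x' < v (y j) ∧ v B < v (y j) ∧ β x' (y j) = 0 ∧
      ∀ i < j, v (y i) < v (y j) ∧ β (y i) (y j) = 0 := by
  classical
  induction n with
  | zero => exact ⟨fun _ => 0, fun j hj => absurd hj (Nat.not_lt_zero j)⟩
  | succ n ih =>
    obtain ⟨y, hy⟩ := ih
    let f : F →+ (Fin (n + 1) → V) :=
      AddMonoidHom.pi (fun i => if h : i.1 < n then β (y i.1) else β x')
    have hf : f.ker.FiniteIndex := by
      have : Finite f.range := inferInstance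
      exact AddSubgroup.finiteIndex_ker f
    obtain ⟨d, hd1, hd2, hd3⟩ : ∃ d : F, v x' ≤ v d ∧ v B ≤ v d ∧ ∀ i < n, v (y i) ≤ v d := by
      let g : Option (Option (Fin n)) → F := fun o =>
        match o with
        | none => x'
        | some none => B
        | some (some i) => y i.1
      obtain ⟨m, hm⟩ := Finite.exists_max (fun o => v (g o))
      exact ⟨g m, hm none, hm (some none), fun i hi => hm (some (some ⟨i, hi⟩))⟩
    obtain ⟨z, hz, hdz⟩ := unb v hv f.ker hf d
    have hz' : ∀ i : Fin (n + 1), (if h : i.1 < n then β (y i.1) else β x') z = 0 := by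
      intro i
      have h1 : f z = 0 := hz
      exact congrFun h1 i
    have hzx : β x' z = 0 := by
      have := hz' ⟨n, Nat.lt_succ_self n⟩
      simpa using this
    have hzy : ∀ i < n, β (y i) z = 0 := by
      intro i hi
      have := hz' ⟨i, Nat.lt_succ_of_lt hi⟩
      simpa [hi] using this
    refine ⟨Function.update y n z, fun j hj => ?_⟩
    rcases Nat.lt_succ_iff_lt_or_eq.1 hj with h | h
    · rw [Function.update_of_ne h.ne]
      obtain ⟨h1, h2, h3, h4⟩ := hy j h
      refine ⟨h1, h2, h3, fun i hi => ?_⟩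
      rw [Function.update_of_ne (hi.trans h).ne]
      exact h4 i hi
    · subst h
      rw [Function.update_self]
      refine ⟨lt_of_le_of_lt hd1 hdz, lt_of_le_of_lt hd2 hdz, hzx, fun i hi => ?_⟩
      rw [Function.update_of_ne hi.ne]
      exact ⟨lt_of_le_of_lt (hd3 i hi) hdz, hzy i hi⟩

end

theorem ss (h1 : T_QM.{u}) (h2 : T_NZ.{u}) : T_SS.{u} := by
  intro F V _ _ _ _ ψ Γ₀ _ v α a b B g hψ hv hα
  have hch : ∀ x : F, x + x = 0 := fun x => CharTwo.add_self_eq_zero x
  have : Infinite F := by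
    by_contra hf
    rw [not_infinite_iff_finite] at hf
    obtain ⟨m, hm⟩ := Finite.exists_max (fun x : F => v x)
    obtain ⟨x, hx⟩ := hv m
    exact absurd (hm x) (not_le.2 hx)
  let ρ : F →+ ψ.range := ψ.rangeRestrict
  have hρs : Function.Surjective ρ := ψ.rangeRestrict_surjective
  have hρv : ∀ x, ((ρ x : ψ.range) : V) = ψ x := fun _ => rfl
  have hVr : ∀ w : ψ.range, w + w = 0 := by
    intro w
    obtain ⟨x, rfl⟩ := hρs w
    rw [← map_add, hch, map_zero]
  have hρ2 : ∀ x, ρ (x ^ 2) = ρ x := fun x => Subtype.ext (hψ x)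
  let β : F →+ F →+ ψ.range := AddMonoidHom.mk' (fun x => AddMonoidHom.mk'
      (fun y => ρ (α ^ 2 * (x ^ 2 * y + x * y ^ 2))) (by
        intro y y'
        rw [← map_add]
        congr 1
        rw [CharTwo.add_sq]
        ring)) (by
    intro x x'
    ext y
    show ((ρ (α ^ 2 * ((x + x') ^ 2 * y + (x + x') * y ^ 2)) : ψ.range) : V) =
      ((ρ (α ^ 2 * (x ^ 2 * y + x * y ^ 2)) + ρ (α ^ 2 * (x' ^ 2 * y + x' * y ^ 2)) : ψ.range) : V)
    rw [← map_add]
    congr 2
    rw [CharTwo.add_sq]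
    ring)
  have hQ : ∀ x y : F, ρ (α ^ 2 * (x + y) ^ 3 + a * (x + y) ^ 2 + b * (x + y)) =
      ρ (α ^ 2 * x ^ 3 + a * x ^ 2 + b * x) + ρ (α ^ 2 * y ^ 3 + a * y ^ 2 + b * y) + β x y := by
    intro x y
    show _ = _ + _ + ρ (α ^ 2 * (x ^ 2 * y + x * y ^ 2))
    rw [← map_add, ← map_add]
    congr 1
    have h3 : (x + y) ^ 3 = (x + y) * (x ^ 2 + y ^ 2) := by
      rw [← CharTwo.add_sq]
      ring
    rw [h3, CharTwo.add_sq]
    ring
  have key := h1 F ψ.range (fun x => ρ (α ^ 2 * x ^ 3 + a * x ^ 2 + b * x)) β hch hVr hQ (by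
    intro χ hχ H hH
    by_contra hcon
    push Not at hcon
    have h3 : χ.comp ρ = 0 := h2 F (χ.comp ρ) α a b H hα hH
      (fun x => by rw [AddMonoidHom.comp_apply, AddMonoidHom.comp_apply, hρ2]) hcon
    apply hχ
    ext w
    obtain ⟨x, rfl⟩ := hρs w
    exact DFunLike.congr_fun h3 x)
  obtain ⟨x', -, hx'⟩ := key (ρ g) ⊤ inferInstance
  obtain ⟨y, hy⟩ := fam v hv β x' B (Nat.card ψ.range + 1)
  obtain ⟨i, j, hij, hj, hQij⟩ : ∃ i j : ℕ, i < j ∧ j < Nat.card ψ.range + 1 ∧
      ρ (α ^ 2 * y i ^ 3 + a * y i ^ 2 + b * y i) =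
        ρ (α ^ 2 * y j ^ 3 + a * y j ^ 2 + b * y j) := by
    have hnot : ¬ Function.Injective (fun i : Fin (Nat.card ψ.range + 1) =>
        ρ (α ^ 2 * y i ^ 3 + a * y i ^ 2 + b * y i)) := by
      intro hinj
      have := Nat.card_le_card_of_injective _ hinj
      rw [Nat.card_fin] at this
      omega
    rw [Function.Injective] at hnot
    push Not at hnot
    obtain ⟨i, j, h, hne⟩ := hnot
    rcases lt_or_gt_of_ne hne with h' | h'
    · exact ⟨i, j, h', j.2, h⟩
    · exact ⟨j, i, h', i.2, h.symm⟩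
  obtain ⟨hj1, hj2, hj3, hj4⟩ := hy j hj
  obtain ⟨hi1, hi2, hi3, -⟩ := hy i (hij.trans hj)
  obtain ⟨hv4, hβ⟩ := hj4 i hij
  have hvy : v (y i + y j) = v (y j) := v.map_add_eq_of_lt_right hv4
  have hvx : v (x' + (y i + y j)) = v (y j) := by
    rw [← hvy]
    exact v.map_add_eq_of_lt_right (by rw [hvy]; exact hj1)
  refine ⟨x' + (y i + y j), by rw [hvx]; exact hj2, ?_⟩
  have h4 : ρ (α ^ 2 * (x' + (y i + y j)) ^ 3 + a * (x' + (y i + y j)) ^ 2 +
      b * (x' + (y i + y j))) = ρ g := by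
    rw [hQ x' (y i + y j), hQ (y i) (y j), hQij, hVr, hβ, add_zero, add_zero, hx', map_add, hi3,
      hj3, add_zero, add_zero]
  have h5 := congrArg (fun w : ψ.range => (w : V)) h4
  exact h5

end Pool.Agent.H48.EC
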